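import Pool.Agent.Lib.MP_0b6b0e_gt.ZB.Defs

/-!
# Module RG: ridges are robustly dense
-/

set_option autoImplicit false

open Set Filter Topology MeasureTheory

open scoped InnerProductSpace

namespace Pool.Agent.Lib.MP_0b6b0e_gt.ZB.H93

variable {E : Type*} [NormedAddCommGroup E] [InnerProductSpace ℝ E]

/-- The maximum of `P` and of three linear functions. -/
noncomputable def mx (P : E → ℝ) (l0 m0 : E →L[ℝ] ℝ) (w : E) (u b : ℝ) (y : E) : ℝ :=
  max (max (P y) ((1 + u) * m0 y)) ((1 + u) * l0 y + b * |⟪w, y⟫_ℝ|)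

theorem mx_isG {P : E → ℝ} (hP : IsG P) {l0 m0 : E →L[ℝ] ℝ} (hl : ∀ y, l0 y ≤ P y)
    (hm : ∀ y, m0 y ≤ P y) (w : E) {u b C : ℝ} (hu : 0 ≤ u) (hb : 0 ≤ b) (hC0 : 0 ≤ C)
    (hC : ∀ y, P y ≤ C * ‖y‖) :
    IsG (mx P l0 m0 w u b) ∧ ∀ y, |mx P l0 m0 w u b y - P y| ≤ (u * C + b * ‖w‖) * ‖y‖ := by
  have hup : ∀ y, mx P l0 m0 w u b y ≤ P y + (u * C + b * ‖w‖) * ‖y‖ := by
    intro y
    have h0 : 0 ≤ b * ‖w‖ * ‖y‖ := by positivity
    have h1 : |⟪w, y⟫_ℝ| ≤ ‖w‖ * ‖y‖ := abs_real_inner_le_norm w y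
    have h2 : b * |⟪w, y⟫_ℝ| ≤ b * (‖w‖ * ‖y‖) := mul_le_mul_of_nonneg_left h1 hb
    have h3 : (1 + u) * l0 y ≤ (1 + u) * P y := mul_le_mul_of_nonneg_left (hl y) (by linarith)
    have h4 : (1 + u) * m0 y ≤ (1 + u) * P y := mul_le_mul_of_nonneg_left (hm y) (by linarith)
    have h5 : u * P y ≤ u * (C * ‖y‖) := mul_le_mul_of_nonneg_left (hC y) hu
    have h6 : 0 ≤ u * (C * ‖y‖) := by positivity
    refine max_le (max_le ?_ ?_) ?_
    · nlinarith
    · nlinarith
    · nlinarith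
  have hlo : ∀ y, P y ≤ mx P l0 m0 w u b y := fun y => (le_max_left _ _).trans (le_max_left _ _)
  refine ⟨⟨?_, ?_, ?_, ?_⟩, ?_⟩
  · intro x y
    have a1 : P x ≤ mx P l0 m0 w u b x := hlo x
    have a2 : P y ≤ mx P l0 m0 w u b y := hlo y
    have b1 : (1 + u) * m0 x ≤ mx P l0 m0 w u b x := (le_max_right _ _).trans (le_max_left _ _)
    have b2 : (1 + u) * m0 y ≤ mx P l0 m0 w u b y := (le_max_right _ _).trans (le_max_left _ _)
    have c1 : (1 + u) * l0 x + b * |⟪w, x⟫_ℝ| ≤ mx P l0 m0 w u b x := le_max_right _ _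
    have c2 : (1 + u) * l0 y + b * |⟪w, y⟫_ℝ| ≤ mx P l0 m0 w u b y := le_max_right _ _
    refine max_le (max_le ?_ ?_) ?_
    · have := hP.add x y
      linarith
    · rw [map_add, mul_add]
      linarith
    · rw [map_add, mul_add, inner_add_right]
      have h1 := abs_add_le (⟪w, x⟫_ℝ) (⟪w, y⟫_ℝ)
      have h2 := mul_le_mul_of_nonneg_left h1 hb
      rw [mul_add] at h2
      linarith
  · intro c hc x
    unfold mx
    rw [hP.smul c hc, map_smul, map_smul, inner_smul_right, abs_mul, abs_of_nonneg hc,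
      smul_eq_mul, smul_eq_mul, mul_max_of_nonneg _ _ hc, mul_max_of_nonneg _ _ hc]
    congr 1
    · congr 1
      ring
    · ring
  · obtain ⟨c, hc, h⟩ := hP.lower
    exact ⟨c, hc, fun x => (h x).trans (hlo x)⟩
  · refine ⟨C + (u * C + b * ‖w‖) + 1, by positivity, fun x => ?_⟩
    have h1 := hup x
    have h2 := hC x
    have h3 : 0 ≤ ‖x‖ := norm_nonneg x
    nlinarith
  · intro y
    rw [abs_of_nonneg (by linarith [hlo y])]
    linarith [hup y]

theorem abs_le_of_le {P : E → ℝ} {l0 : E →L[ℝ] ℝ} (hl : ∀ y, l0 y ≤ P y) {C : ℝ}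
    (hC : ∀ y, P y ≤ C * ‖y‖) (h : E) : |l0 h| ≤ C * ‖h‖ := by
  rw [abs_le]
  constructor
  · have h1 := (hl (-h)).trans (hC (-h))
    rw [map_neg, norm_neg] at h1
    linarith
  · exact (hl h).trans (hC h)

theorem rg (hDV : DVStatement) : RGStatement := by
  intro n x w k hx hwx hk P hP ε hε
  obtain ⟨c, hc, hclow⟩ := hP.lower
  obtain ⟨C, hC, hCup⟩ := hP.upper
  obtain ⟨l0, hl, hlx⟩ := hDV.1 n P hP x
  obtain ⟨m0, hm, hmx⟩ := hDV.1 n P hP (-x)
  have hxn : 0 < ‖x‖ := norm_pos_iff.2 hx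
  have hPx : 0 < P x := lt_of_lt_of_le (by positivity) (hclow x)
  have hPx' : 0 < P (-x) := lt_of_lt_of_le (by rw [norm_neg]; positivity) (hclow (-x))
  set p0 := min (P x) (P (-x)) with hp0
  have hp0pos : 0 < p0 := lt_min hPx hPx'
  have hp1 : p0 ≤ P x := min_le_left _ _
  have hp2 : p0 ≤ P (-x) := min_le_right _ _
  set u := min 1 (ε / (2 * C)) with hu
  have hupos : 0 < u := lt_min one_pos (by positivity)
  have hu1 : u ≤ 1 := min_le_left _ _
  have hu2 : u * C ≤ ε / 2 := by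
    have := mul_le_mul_of_nonneg_right (min_le_right 1 (ε / (2 * C))) hC.le
    calc u * C ≤ ε / (2 * C) * C := this
      _ = ε / 2 := by field_simp
  set b := min k (ε / (2 * (‖w‖ + 1))) with hb
  have hw1 : 0 < ‖w‖ + 1 := by positivity
  have hbpos : 0 < b := lt_min hk (by positivity)
  have hbk : b ≤ k := min_le_left _ _
  have hb2 : b * ‖w‖ ≤ ε / 2 := by
    have h1 : b * (‖w‖ + 1) ≤ ε / (2 * (‖w‖ + 1)) * (‖w‖ + 1) :=
      mul_le_mul_of_nonneg_right (min_le_right _ _) hw1.le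
    have h2 : ε / (2 * (‖w‖ + 1)) * (‖w‖ + 1) = ε / 2 := by field_simp
    nlinarith
  have hD : 0 < 4 * C + b * ‖w‖ := by positivity
  set r := min (k * b) (u * p0 / (4 * C + b * ‖w‖)) with hr
  have hrpos : 0 < r := lt_min (by positivity) (by positivity)
  have hr1 : r ≤ k * b := min_le_left _ _
  have hr2 : (4 * C + b * ‖w‖) * r ≤ u * p0 := by
    have := mul_le_mul_of_nonneg_left (min_le_right (k * b) (u * p0 / (4 * C + b * ‖w‖))) hD.le
    calc (4 * C + b * ‖w‖) * r ≤ (4 * C + b * ‖w‖) * (u * p0 / (4 * C + b * ‖w‖)) := this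
      _ = u * p0 := by field_simp
  have hCr : 0 ≤ C * r := by positivity
  have hbw : 0 ≤ b * ‖w‖ := by positivity
  have hbwr : 0 ≤ b * ‖w‖ * r := by positivity
  have hup0 : u * p0 ≤ p0 := by nlinarith
  obtain ⟨hG, hclose⟩ := mx_isG hP hl hm w hupos.le hbpos.le hC.le hCup
  refine ⟨mx P l0 m0 w u b, hG, fun y => (hclose y).trans ?_, k * r ^ 2 / (2 * ‖x‖ + r), by
    positivity, fun P'' _ hP'' => ?_⟩
  · exact mul_le_mul_of_nonneg_right (by linarith) (norm_nonneg y)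
  have labs := abs_le_of_le hl hCup
  have mabs := abs_le_of_le hm hCup
  have hlneg : l0 (-x) = -P x := by rw [map_neg, hlx]
  have hmneg : m0 x = -P (-x) := by
    have : m0 (-x) = P (-x) := hmx
    rw [map_neg] at this
    linarith
  -- near x
  have near : ∀ h : EuclideanSpace ℝ (Fin n), ‖h‖ ≤ r →
      mx P l0 m0 w u b (x + h) = (1 + u) * P x + (1 + u) * l0 h + b * |⟪w, h⟫_ℝ| := by
    intro h hh
    have e : (1 + u) * l0 (x + h) + b * |⟪w, x + h⟫_ℝ| =
        (1 + u) * P x + (1 + u) * l0 h + b * |⟪w, h⟫_ℝ| := by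
      rw [map_add, hlx, inner_add_right, hwx, zero_add]
      ring
    unfold mx
    rw [e]
    apply max_eq_right
    have h1 := abs_le.1 (labs h)
    have h2 := abs_le.1 (mabs h)
    have h3 : C * ‖h‖ ≤ C * r := mul_le_mul_of_nonneg_left hh hC.le
    have h4 : 0 ≤ b * |⟪w, h⟫_ℝ| := by positivity
    have h5 : -(2 * (C * r)) ≤ (1 + u) * l0 h := by
      have : -(C * r) ≤ l0 h := by linarith
      nlinarith
    refine max_le ?_ ?_
    · have h6 := hP.add x h
      have h7 := hCup h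
      have h8 : u * p0 ≤ u * P x := mul_le_mul_of_nonneg_left hp1 hupos.le
      nlinarith
    · rw [map_add, hmneg]
      have h9 : (1 + u) * m0 h ≤ 2 * (C * r) := by
        have : m0 h ≤ C * r := by linarith
        nlinarith
      nlinarith
  have nearm : ∀ h : EuclideanSpace ℝ (Fin n), ‖h‖ ≤ r →
      mx P l0 m0 w u b (-x - h) = (1 + u) * P (-x) - (1 + u) * m0 h := by
    intro h hh
    have e : (1 + u) * m0 (-x - h) = (1 + u) * P (-x) - (1 + u) * m0 h := by
      rw [map_sub, hmx]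
      ring
    have h1 := abs_le.1 (labs h)
    have h2 := abs_le.1 (mabs h)
    have h3 : C * ‖h‖ ≤ C * r := mul_le_mul_of_nonneg_left hh hC.le
    have h9 : (1 + u) * m0 h ≤ 2 * (C * r) := by
      have : m0 h ≤ C * r := by linarith
      nlinarith
    unfold mx
    rw [e]
    have hfirst : max (P (-x - h)) ((1 + u) * P (-x) - (1 + u) * m0 h) =
        (1 + u) * P (-x) - (1 + u) * m0 h := by
      apply max_eq_right
      have h6 := hP.add (-x) (-h)
      have h7 := hCup (-h)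
      rw [norm_neg] at h7
      rw [← sub_eq_add_neg] at h6
      have h8 : u * p0 ≤ u * P (-x) := mul_le_mul_of_nonneg_left hp2 hupos.le
      nlinarith
    rw [hfirst]
    apply max_eq_left
    have h10 : |⟪w, -x - h⟫_ℝ| ≤ ‖w‖ * r := by
      rw [inner_sub_right, inner_neg_right, hwx, neg_zero, zero_sub, abs_neg]
      exact (abs_real_inner_le_norm w h).trans (mul_le_mul_of_nonneg_left hh (norm_nonneg w))
    have h11 : b * |⟪w, -x - h⟫_ℝ| ≤ b * (‖w‖ * r) := mul_le_mul_of_nonneg_left h10 hbpos.le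
    rw [map_sub, hlneg]
    have h12 : -(1 + u) * l0 h ≤ 2 * (C * r) := by
      have : -(l0 h) ≤ C * r := by linarith
      nlinarith
    nlinarith
  refine ⟨r, b, hrpos, hbpos, hr1, hbk, (1 + u) • l0, -((1 + u) • m0), fun h hh => ?_⟩
  have hδ : ∀ y : EuclideanSpace ℝ (Fin n), ‖y‖ ≤ ‖x‖ + r →
      ∀ z : EuclideanSpace ℝ (Fin n), ‖z‖ ≤ ‖x‖ →
      |P'' y - mx P l0 m0 w u b y| + |P'' z - mx P l0 m0 w u b z| ≤ k * r ^ 2 := by
    intro y hy z hz
    have h1 := hP'' y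
    have h2 := hP'' z
    have h3 : (0 : ℝ) < 2 * ‖x‖ + r := by positivity
    have h4 : 0 < k * r ^ 2 / (2 * ‖x‖ + r) := by positivity
    calc |P'' y - mx P l0 m0 w u b y| + |P'' z - mx P l0 m0 w u b z|
        ≤ k * r ^ 2 / (2 * ‖x‖ + r) * (‖x‖ + r) + k * r ^ 2 / (2 * ‖x‖ + r) * ‖x‖ :=
          add_le_add (h1.trans (mul_le_mul_of_nonneg_left hy h4.le))
            (h2.trans (mul_le_mul_of_nonneg_left hz h4.le))
      _ = k * r ^ 2 := by field_simp; ring
  have n0 := near 0 (by rw [norm_zero]; exact hrpos.le)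
  have n0' := nearm 0 (by rw [norm_zero]; exact hrpos.le)
  rw [add_zero, map_zero, mul_zero, add_zero, inner_zero_right, abs_zero, mul_zero, add_zero] at n0
  rw [sub_zero, map_zero, mul_zero, sub_zero] at n0'
  have n1 := near h hh
  have n2 := nearm h hh
  constructor
  · have h1 := hδ (x + h) ((norm_add_le _ _).trans (by linarith)) x le_rfl
    rw [n1, n0] at h1
    have e : P'' (x + h) - P'' x - ((1 + u) • l0) h - b * |⟪w, h⟫_ℝ| =
        (P'' (x + h) - ((1 + u) * P x + (1 + u) * l0 h + b * |⟪w, h⟫_ℝ|)) -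
          (P'' x - (1 + u) * P x) := by
      rw [ContinuousLinearMap.smul_apply, smul_eq_mul]
      ring
    rw [e]
    exact (abs_sub _ _).trans h1
  · have h1 := hδ (-x - h) ((norm_sub_le _ _).trans (by rw [norm_neg]; linarith)) (-x)
      (by rw [norm_neg])
    rw [n2, n0'] at h1
    have e : P'' (-x - h) - P'' (-x) - (-((1 + u) • m0)) h =
        (P'' (-x - h) - ((1 + u) * P (-x) - (1 + u) * m0 h)) -
          (P'' (-x) - (1 + u) * P (-x)) := by
      rw [ContinuousLinearMap.neg_apply, ContinuousLinearMap.smul_apply, smul_eq_mul]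
      ring
    rw [e]
    exact (abs_sub _ _).trans h1

end Pool.Agent.Lib.MP_0b6b0e_gt.ZB.H93
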